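import Pool.Agent.Helper74.RG.Defs

/-!
# Block A1: the dual of a locally nilpotent module over power series is generated by functionals
separating the common kernel
-/

set_option autoImplicit false

namespace Pool.Agent.Helper55.RG

open Pool.Agent.Helper74.RG Module

variable {s : ℕ} {k : Type} [Field k] {H : Type} [AddCommGroup H] [Module k H]
  {T : Fin s → Module.End k H}

/-- all the numbers `x i (T ^ a h)` -/
noncomputable def uMap (hT : LN T) {m : ℕ} (x : Fin m → DR hT) :
    H →ₗ[k] ((Fin s →₀ ℕ) × Fin m →₀ k) where
  toFun h := Finsupp.ofSupportFinite (fun ai => (x ai.2).toDual (mon T ai.1 h)) (by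
    refine ((hT.finite_supp h).prod (Set.finite_univ (α := Fin m))).subset ?_
    rintro ⟨a, i⟩ hai
    rw [Function.mem_support] at hai
    refine ⟨?_, Set.mem_univ _⟩
    intro h0
    exact hai (by simp only; rw [h0, map_zero]))
  map_add' h h' := by
    ext ⟨a, i⟩
    change (x i).toDual (mon T a (h + h')) =
      (x i).toDual (mon T a h) + (x i).toDual (mon T a h')
    rw [map_add, map_add]
  map_smul' c h := by
    ext ⟨a, i⟩
    change (x i).toDual (mon T a (c • h)) = c • (x i).toDual (mon T a h)
    rw [map_smul, map_smul]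

theorem uMap_apply (hT : LN T) {m : ℕ} (x : Fin m → DR hT) (h : H) (a : Fin s →₀ ℕ) (i : Fin m) :
    uMap hT x h (a, i) = (x i).toDual (mon T a h) := rfl

theorem sep_zero (hT : LN T) {m : ℕ} (x : Fin m → DR hT)
    (hx : ∀ h ∈ inv T, (∀ i, (x i).toDual h = 0) → h = 0) (h : H)
    (h0 : ∀ (a : Fin s →₀ ℕ) (i : Fin m), (x i).toDual (mon T a h) = 0) : h = 0 := by
  by_contra hne
  have hS : ({α : Fin s →₀ ℕ | mon T α h ≠ 0} : Set (Fin s →₀ ℕ)).Nonempty := by
    refine ⟨0, ?_⟩
    rw [Set.mem_ofPred_eq, Finsupp.coe_zero, mon_zero, Module.End.one_apply]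
    exact hne
  obtain ⟨a, ha, hmax⟩ := Set.exists_max_image _ (fun a : Fin s →₀ ℕ => ∑ i, a i)
    (hT.finite_supp h) hS
  apply ha
  apply hx
  · rw [mem_inv]
    intro i
    by_contra hcon
    have h1 : mon T (⇑(Finsupp.single i 1 + a : Fin s →₀ ℕ)) h = T i (mon T a h) := by
      have h2 : ((Finsupp.single i 1 : Fin s →₀ ℕ) : Fin s → ℕ) = Pi.single i 1 := by
        funext j
        rw [Finsupp.single_apply, Pi.single_apply]
        simp only [eq_comm]
      rw [Finsupp.coe_add, hT.mon_add, Module.End.mul_apply, h2, mon_single, pow_one]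
    have h3 := hmax (Finsupp.single i 1 + a) (by
      rw [Set.mem_ofPred_eq, h1]
      exact hcon)
    simp only [Finsupp.coe_add, Pi.add_apply, Finset.sum_add_distrib] at h3
    have h4 : ∑ j, (Finsupp.single i 1 : Fin s →₀ ℕ) j = 1 := by
      rw [Finset.sum_eq_single i]
      · simp
      · intro j _ hj
        rw [Finsupp.single_apply, if_neg (Ne.symm hj)]
      · intro h; exact absurd (Finset.mem_univ i) h
    omega
  · intro i
    exact h0 a i

theorem uMap_injective (hT : LN T) {m : ℕ} (x : Fin m → DR hT)
    (hx : ∀ h ∈ inv T, (∀ i, (x i).toDual h = 0) → h = 0) :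
    LinearMap.ker (uMap hT x) = ⊥ := by
  rw [LinearMap.ker_eq_bot']
  intro h hh
  apply sep_zero hT x hx
  intro a i
  rw [← uMap_apply, hh]
  rfl

/-- A1a -/
theorem span_top (hT : LN T) {m : ℕ} (x : Fin m → DR hT)
    (hx : ∀ h ∈ inv T, (∀ i, (x i).toDual h = 0) → h = 0) :
    Submodule.span (MvPowerSeries (Fin s) k) (Set.range x) = ⊤ := by
  classical
  rw [eq_top_iff]
  intro μ _
  obtain ⟨g, hg⟩ := LinearMap.exists_leftInverse_of_injective (uMap hT x) (uMap_injective hT x hx)
  have hgu : ∀ h, g (uMap hT x h) = h := fun h => by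
    have := LinearMap.congr_fun hg h
    simpa using this
  let f : Fin m → MvPowerSeries (Fin s) k := fun i a => μ.toDual (g (Finsupp.single (a, i) 1))
  have hμ : μ = ∑ i, f i • x i := by
    apply DR.ext
    intro h
    rw [DR.sum_apply]
    simp only [DR.smul_apply]
    set S : Finset (Fin s →₀ ℕ) := (hT.finite_supp h).toFinset with hS
    have hmem : ∀ α : Fin s →₀ ℕ, mon T α h ≠ 0 → α ∈ S := by
      intro α hα
      rw [hS, Set.Finite.mem_toFinset]
      exact hα
    have hu : uMap hT x h = ∑ i : Fin m, ∑ a ∈ S,
        ((x i).toDual (mon T a h)) • Finsupp.single (a, i) (1 : k) := by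
      ext ⟨b, j⟩
      rw [uMap_apply, Finsupp.finsetSum_apply, Finset.sum_eq_single j]
      · rw [Finsupp.finsetSum_apply]
        by_cases hb : b ∈ S
        · rw [Finset.sum_eq_single b]
          · rw [Finsupp.smul_apply, Finsupp.single_eq_same, smul_eq_mul, mul_one]
          · intro c _ hc
            rw [Finsupp.smul_apply, Finsupp.single_apply, if_neg, smul_zero]
            intro h1
            exact hc (Prod.ext_iff.mp h1).1
          · intro h1; exact absurd hb h1
        · have h0 : mon T b h = 0 := by
            by_contra h1; exact hb (hmem b h1)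
          rw [h0, map_zero, Finset.sum_eq_zero]
          intro c hc
          rw [Finsupp.smul_apply, Finsupp.single_apply, if_neg, smul_zero]
          intro h1
          have := (Prod.ext_iff.mp h1).1
          simp only at this
          subst this
          exact hb hc
      · intro i _ hi
        rw [Finsupp.finsetSum_apply, Finset.sum_eq_zero]
        intro c _
        rw [Finsupp.smul_apply, Finsupp.single_apply, if_neg, smul_zero]
        intro h1
        exact hi (Prod.ext_iff.mp h1).2
      · intro h1; exact absurd (Finset.mem_univ j) h1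
    conv_lhs => rw [← hgu h, hu]
    rw [map_sum, map_sum]
    apply Finset.sum_congr rfl
    intro i _
    rw [hT.act_eq_sum (f i) hmem, map_sum, map_sum, map_sum]
    apply Finset.sum_congr rfl
    intro a _
    rw [map_smul, map_smul, map_smul, smul_eq_mul, smul_eq_mul, mul_comm]
    rfl
  rw [hμ]
  apply Submodule.sum_mem
  intro i _
  exact Submodule.smul_mem _ _ (Submodule.subset_span ⟨i, rfl⟩)

/-- A1b -/
theorem finite_DR (hT : LN T) [FiniteDimensional k (inv T)] :
    Module.Finite (MvPowerSeries (Fin s) k) (DR hT) := by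
  choose g hg using fun i => LinearMap.exists_extend ((Module.finBasis k (inv T)).coord i)
  have h1 := span_top hT (fun i => DR.of hT (g i)) (by
    intro h hh hz
    have h2 : (⟨h, hh⟩ : inv T) = 0 := by
      apply (Module.finBasis k (inv T)).ext_elem
      intro i
      have h3 := LinearMap.congr_fun (hg i) ⟨h, hh⟩
      have h4 : g i h = 0 := hz i
      rw [map_zero, Finsupp.zero_apply]
      rw [← Module.Basis.coord_apply, ← h3]
      exact h4
    exact congrArg Subtype.val h2)
  rw [Module.finite_def, ← h1]
  exact Submodule.fg_span (Set.finite_range _)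

theorem finite_box_aux (hT : LN T) [Module.Finite (MvPowerSeries (Fin s) k) (DR hT)] (q : ℕ) :
    FiniteDimensional k (box T q) := by
  classical
  obtain ⟨m, x, hx⟩ := Module.Finite.exists_fin (R := MvPowerSeries (Fin s) k) (M := DR hT)
  set S : Finset (Fin s →₀ ℕ) := (finite_lt (s := s) q).toFinset with hS
  let r : S × Fin m → Module.Dual k (box T q) := fun p =>
    ((x p.2).toDual.comp (mon T (p.1 : Fin s →₀ ℕ))).comp (box T q).subtype
  have htop : Submodule.span k (Set.range r) = ⊤ := by
    rw [eq_top_iff]
    intro φ _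
    obtain ⟨μ, hμ⟩ := LinearMap.exists_extend φ
    have hmem : DR.of hT μ ∈ Submodule.span (MvPowerSeries (Fin s) k) (Set.range x) := by
      rw [hx]; trivial
    rw [Submodule.mem_span_range_iff_exists_fun] at hmem
    obtain ⟨c, hc⟩ := hmem
    have hφ : φ = ∑ j, ∑ a : S, MvPowerSeries.coeff (a : Fin s →₀ ℕ) (c j) • r (a, j) := by
      apply LinearMap.ext
      intro h
      have h1 : φ h = (DR.of hT μ).toDual (h : H) := by
        rw [← hμ]; rfl
      rw [h1, ← hc, DR.sum_apply, LinearMap.sum_apply]
      apply Finset.sum_congr rfl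
      intro j _
      rw [DR.smul_apply, hT.act_eq_sum (c j) (S := S) (by
        intro α hα
        rw [hS, Set.Finite.mem_toFinset]
        exact hT.supp h.2 hα), map_sum, LinearMap.sum_apply, ← Finset.sum_coe_sort]
      apply Finset.sum_congr rfl
      intro a _
      rw [map_smul]
      rfl
    rw [hφ]
    apply Submodule.sum_mem
    intro j _
    apply Submodule.sum_mem
    intro a _
    exact Submodule.smul_mem _ _ (Submodule.subset_span ⟨(a, j), rfl⟩)
  have h2 : Module.Finite k (Module.Dual k (box T q)) := by
    rw [Module.finite_def, ← htop]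
    exact Submodule.fg_span (Set.finite_range _)
  exact (Module.finite_dual_iff k).mp h2

/-- A1c -/
theorem finite_inv (hT : LN T) [Module.Finite (MvPowerSeries (Fin s) k) (DR hT)] :
    FiniteDimensional k (inv T) := by
  have h1 := finite_box_aux hT 1
  have h2 : inv T ≤ box T 1 := by
    intro h hh
    rw [mem_inv] at hh
    rw [mem_box]
    intro i
    rw [pow_one]
    exact hh i
  exact Submodule.finiteDimensional_of_le h2

/-- A1d -/
theorem finite_box (hT : LN T) [FiniteDimensional k (inv T)] (q : ℕ) :
    FiniteDimensional k (box T q) := by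
  have := finite_DR hT
  exact finite_box_aux hT q

end Pool.Agent.Helper55.RG
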